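import Pool.Agent.H1.EDB.EQN
import Pool.Agent.H8.EDA.Targets

/-!
# Row EQF: the equation of a linear form in the coordinates of an iterate, dimension `ν`
-/

set_option autoImplicit false

open MvPolynomial
open Pool.Agent.H12.ZD (pmap)
open Pool.Agent.H18.HIT Pool.Agent.H18.HX Pool.Agent.H18.VZ
open Pool.Agent.H8.ZA (HFam Const NA)
open Pool.Agent.H8.TD (lc dg Cop)
open Pool.Agent.H8.TX (hn)
open Pool.Agent.H2.ED
open Pool.Agent.H18.TE (lg Gc)
open Pool.Agent.H18.TXB (avn)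
open Pool.Agent.H18.EDB (dgm)
open Pool.Agent.H8.EDA
open Pool.Agent.H1.EDB

namespace Pool.Agent.H10.EDA

theorem pf_EQF (hCHN : Pool.Agent.H18.EDB.T_CHN) : T_EQF := by
  intro ν r d m P F K _ _ ξ τ Y s hν hP hF hS hFd hY hY1
  have hr : 1 ≤ r := by
    by_contra hr0
    have hr0' : r = 0 := by omega
    apply hP.irr.not_isUnit
    have h1 : P.totalDegree = 0 := by
      have := hP.hom.totalDegree_le
      omega
    rw [totalDegree_eq_zero_iff_eq_C] at h1
    rw [h1, isUnit_map_iff, isUnit_iff_ne_zero]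
    intro h0
    rw [h0, C_0] at h1
    exact hP.irr.ne_zero h1
  obtain ⟨n, rfl⟩ : ∃ n, ν = n + 1 := ⟨ν - 1, by omega⟩
  have halg := alg_muN hFd.gp hP (AlgHom.id Qb K)
  obtain ⟨μ, hμ⟩ : ∃ μ : Fin (n + 1) → K, μ = fun i => ξ i.succ.succ := ⟨_, rfl⟩
  have hμf : (fun i : Fin (n + 1) => (AlgHom.id Qb K) (ξ i.succ.succ)) = μ := by
    rw [hμ]
    rfl
  rw [hμf] at halg
  obtain ⟨s₀, hs₀⟩ : ∃ s₀, s₀ = s 0 := ⟨_, rfl⟩
  obtain ⟨E, Y', Cf, hE, hCf, hcop, hCf0, hirr, hrel, hdeg, -⟩ :=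
    hCHN (n + 1) Qb K μ (lc s₀ (pn τ ξ m)) (by omega) hFd.gp.trd halg
  have hdgμ : dg Qb (Set.range μ) ≤ r := by
    rw [hμ]
    exact dg_last hFd.gp hP
  have hYE : Y * E ≤ r ^ n * (Y' * dg Qb (Set.range μ)) := by
    obtain ⟨B, hB⟩ : ∃ B, B = Y' * dg Qb (Set.range μ) / E := ⟨_, rfl⟩
    have h1 : ∀ u : Fin n → Fin (n + 1) → Qb, dg Qb (insert (lc s₀ (pn τ ξ m))
        (Set.range fun i => lc (u i) μ)) ≤ B := by
      intro u
      rw [hB, Nat.le_div_iff_mul_le (by omega)]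
      exact hdeg u
    rw [hμ] at h1
    have h2 := lin_chain hP hr ξ hFd.gp.one (aeval_P hFd.gp hP) hFd.gp.trd
      (lc s₀ (pn τ ξ m)) B h1 (fun i => s i.succ)
    have h3 : dgm Qb (pn τ ξ m) ξ 1 s = dg Qb (insert (lc s₀ (pn τ ξ m))
        (Set.range fun i : Fin n => lc (s i.succ) ξ)) := by
      unfold dgm
      congr 1
      ext w
      rw [Set.mem_insert_iff]
      constructor
      · rintro ⟨i, rfl⟩
        refine Fin.cases ?_ (fun j => ?_) i
        · refine Or.inl ?_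
          rw [hs₀]
          show lc (s 0) (if ((0 : Fin (n + 1)) : ℕ) < 1 then _ else _) = _
          rw [if_pos (by simp)]
        · refine Or.inr ⟨j, ?_⟩
          show _ = lc (s j.succ) (if ((j.succ : Fin (n + 1)) : ℕ) < 1 then _ else _)
          rw [if_neg (by simp)]
      · rintro (rfl | ⟨j, rfl⟩)
        · refine ⟨0, ?_⟩
          show lc (s 0) (if ((0 : Fin (n + 1)) : ℕ) < 1 then _ else _) = _
          rw [if_pos (by simp), hs₀]
        · refine ⟨j.succ, ?_⟩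
          show lc (s j.succ) (if ((j.succ : Fin (n + 1)) : ℕ) < 1 then _ else _) = _
          rw [if_neg (by simp)]
    have h4 : Y ≤ r ^ n * B := hY.trans (h3.le.trans h2)
    have h7 : B * E ≤ Y' * dg Qb (Set.range μ) := by
      rw [hB]
      exact Nat.div_mul_le_self _ _
    calc Y * E ≤ r ^ n * B * E := Nat.mul_le_mul_right _ h4
      _ = r ^ n * (B * E) := by ring
      _ ≤ _ := Nat.mul_le_mul_left _ h7
  refine ⟨E, Y', Cf, s₀, hE, hCf, hcop, hCf0, hirr, ?_, ?_⟩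
  · have hr0 : (0 : ℝ) < r := by
      have h1 : (1 : ℝ) ≤ r := by exact_mod_cast hr
      linarith
    have h1 : Y * E ≤ r ^ n * (Y' * r) :=
      hYE.trans (Nat.mul_le_mul_left _ (Nat.mul_le_mul_left _ hdgμ))
    have h2 : (Y : ℝ) * E ≤ (r : ℝ) ^ n * (Y' * (r : ℝ)) := by exact_mod_cast h1
    rw [mul_div_assoc', div_le_iff₀ (by positivity)]
    calc (E : ℝ) * Y = Y * E := mul_comm _ _
      _ ≤ _ := h2
      _ = _ := by ring
  · rw [← hrel]
    refine Finset.sum_congr rfl fun j _ => ?_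
    congr 3
    funext i
    refine Fin.cases ?_ (fun i' => ?_) i
    · rw [Fin.cons_zero]
      exact hFd.gp.one
    · rw [Fin.cons_succ, hμ]

end Pool.Agent.H10.EDA
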